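import Pool.Agent.Q120.LD.Kak

/-!
# Project LD, job COL: a colouring with few monochromatic pairs
-/

set_option autoImplicit false

namespace Pool.Agent.Q224.LD

open Finset Pool.Agent.Q120.LD

theorem t_COL : J_COL := by
  classical
  intro J w m hm hw hs
  have hm0 : (0 : ℝ) < m := by exact_mod_cast hm
  induction J using Finset.induction_on with
  | empty => exact ⟨fun _ => 0, fun _ => hm, by simp⟩
  | insert q₀ J hq ih =>
    obtain ⟨f, hf, hI⟩ := ih
    obtain ⟨c, hc, hc2⟩ : ∃ c ∈ range m, ∑ q ∈ J.filter (fun q => f q = c), w q₀ q ≤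
        1 / m * ∑ q ∈ J, w q₀ q := by
      by_contra hcon
      push Not at hcon
      have h1 : ∑ c ∈ range m, (1 / m : ℝ) * ∑ q ∈ J, w q₀ q <
          ∑ c ∈ range m, ∑ q ∈ J.filter (fun q => f q = c), w q₀ q :=
        sum_lt_sum_of_nonempty ⟨0, mem_range.2 hm⟩ hcon
      rw [sum_fiberwise_of_maps_to (fun q _ => mem_range.2 (hf q)), sum_const, card_range,
        nsmul_eq_mul] at h1
      have h2 : (m : ℝ) * (1 / m * ∑ q ∈ J, w q₀ q) = ∑ q ∈ J, w q₀ q := by field_simp
      linarith
    rw [mem_range] at hc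
    have hne : ∀ q ∈ J, q ≠ q₀ := fun q h => ne_of_mem_of_not_mem h hq
    obtain ⟨g, hg⟩ : ∃ g : ℕ → ℕ, g = Function.update f q₀ c := ⟨_, rfl⟩
    have hg0 : g q₀ = c := by rw [hg, Function.update_self]
    have hgq : ∀ q ∈ J, g q = f q := fun q h => by rw [hg, Function.update_of_ne (hne q h)]
    refine ⟨g, ?_, ?_⟩
    · intro q
      by_cases h : q = q₀
      · rw [h, hg0]; exact hc
      · rw [hg, Function.update_of_ne h]; exact hf q
    · have e1 : ∑ q ∈ insert q₀ J, ∑ q' ∈ (insert q₀ J).filter (fun q' => g q' = g q), w q q' =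
          (w q₀ q₀ + ∑ q ∈ J.filter (fun q => f q = c), w q₀ q) +
            (∑ q ∈ J.filter (fun q => f q = c), w q₀ q +
              ∑ q ∈ J, ∑ q' ∈ J.filter (fun q' => f q' = f q), w q q') := by
        rw [sum_insert hq]
        congr 1
        · rw [sum_filter, sum_insert hq, if_pos rfl, sum_filter]
          congr 1
          refine sum_congr rfl (fun q h => ?_)
          rw [hg0, hgq q h]
        · rw [sum_filter, ← sum_add_distrib]
          refine sum_congr rfl (fun q h => ?_)
          rw [sum_filter, sum_insert hq, hg0, hgq q h, sum_filter]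
          congr 1
          · by_cases hh : c = f q
            · rw [if_pos hh, if_pos hh.symm, hs]
            · rw [if_neg hh, if_neg (fun h => hh h.symm)]
          · refine sum_congr rfl (fun q' h' => ?_)
            rw [hgq q' h']
      have e2 : ∑ q ∈ insert q₀ J, ∑ q' ∈ insert q₀ J, w q q' =
          (w q₀ q₀ + ∑ q ∈ J, w q₀ q) + (∑ q ∈ J, w q₀ q + ∑ q ∈ J, ∑ q' ∈ J, w q q') := by
        rw [sum_insert hq, sum_insert hq]
        congr 1
        rw [← sum_add_distrib]
        refine sum_congr rfl (fun q h => ?_)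
        rw [sum_insert hq, hs q q₀]
      rw [e1, e2, sum_insert hq]
      have h3 : 0 ≤ 1 / (m : ℝ) * w q₀ q₀ := mul_nonneg (by positivity) (hw _ _)
      have h4 : 1 / (m : ℝ) * ((w q₀ q₀ + ∑ q ∈ J, w q₀ q) +
          (∑ q ∈ J, w q₀ q + ∑ q ∈ J, ∑ q' ∈ J, w q q')) =
          1 / (m : ℝ) * w q₀ q₀ + 2 * (1 / (m : ℝ) * ∑ q ∈ J, w q₀ q) +
            1 / (m : ℝ) * ∑ q ∈ J, ∑ q' ∈ J, w q q' := by ring
      linarith

end Pool.Agent.Q224.LD
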