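import Pool.Agent.Q224.LD.ConfB

/-!
# Project LD, job CONF: the structure of a large deviation
-/

set_option autoImplicit false

namespace Pool.Agent.Q224.LD

open Finset Filter Pool.Agent.Q120.GE Pool.Agent.Q237.LD Pool.Agent.Q120.LD
open scoped Topology

theorem upow {x β : ℝ} (hx : 0 < x) (k : ℕ) : (x ^ (-β)) ^ k = x ^ (-(k * β)) := by
  rw [← Real.rpow_natCast, ← Real.rpow_mul hx.le]
  congr 1
  ring

theorem log_ev {β : ℝ} (hβ : 0 < β) : ∀ᶠ x : ℕ in atTop, 12 ≤ (x : ℝ) ^ β ∧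
    (Nat.log 2 x : ℝ) + 1 ≤ (x : ℝ) ^ β := by
  have h1 : ∀ᶠ x : ℕ in atTop, 12 ≤ (x : ℝ) ^ β :=
    ((tendsto_rpow_atTop hβ).comp tendsto_natCast_atTop_atTop).eventually_ge_atTop 12
  have hl : 0 < Real.log 2 := Real.log_pos (by norm_num)
  have h2 : ∀ᶠ x : ℕ in atTop, ‖Real.log x‖ ≤ Real.log 2 / 2 * ‖(x : ℝ) ^ β‖ :=
    tendsto_natCast_atTop_atTop.eventually ((isLittleO_log_rpow_atTop hβ).bound (by positivity))
  filter_upwards [h1, h2, eventually_ge_atTop 1] with x hx1 hx2 hx3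
  refine ⟨hx1, ?_⟩
  have hx0 : (1 : ℝ) ≤ x := by exact_mod_cast hx3
  have h3 : (Nat.log 2 x : ℝ) * Real.log 2 ≤ Real.log x := by
    rw [← Real.log_pow]
    refine Real.log_le_log (by positivity) ?_
    exact_mod_cast Nat.pow_log_le_self 2 (by omega : x ≠ 0)
  rw [Real.norm_of_nonneg (Real.log_nonneg hx0), Real.norm_of_nonneg (by positivity)] at hx2
  have h4 : (Nat.log 2 x : ℝ) * Real.log 2 ≤ (x : ℝ) ^ β / 2 * Real.log 2 := by
    refine h3.trans (hx2.trans (le_of_eq ?_))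
    ring
  have h5 := le_of_mul_le_mul_right h4 hl
  linarith

/-- the dyadic block -/
theorem block_ex {x : ℕ} {θ β : ℝ} {D : ℕ → ℝ} (hx : 1 ≤ x) (hθ1 : θ < 1)
    (hlog : (Nat.log 2 x : ℝ) + 1 ≤ (x : ℝ) ^ β)
    (hsum : (x : ℝ) ^ (1 - β) ≤ ∑ q ∈ Icc 1 ⌊(x : ℝ) ^ θ⌋₊, D q) :
    ∃ (Q : ℕ) (I : Finset ℕ), 1 ≤ Q ∧ (Q : ℝ) ≤ (x : ℝ) ^ θ ∧ Q ≤ x ∧ (∀ q ∈ I, 1 ≤ q ∧ q ≤ Q ∧ Q < 2 * q) ∧
      (x : ℝ) ^ (1 - 2 * β) ≤ ∑ q ∈ I, D q := by
  have hxr : (1 : ℝ) ≤ x := by exact_mod_cast hx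
  have hx0 : (0 : ℝ) < x := by linarith
  have hFx : ⌊(x : ℝ) ^ θ⌋₊ ≤ x := by
    have h2 : (x : ℝ) ^ θ ≤ x := by
      calc (x : ℝ) ^ θ ≤ (x : ℝ) ^ (1 : ℝ) := Real.rpow_le_rpow_of_exponent_le hxr (by linarith)
        _ = x := Real.rpow_one _
    exact (Nat.floor_le_floor h2).trans (by rw [Nat.floor_natCast])
  have hmap : ∀ q ∈ Icc 1 ⌊(x : ℝ) ^ θ⌋₊, Nat.log 2 q ∈ range (Nat.log 2 x + 1) := by
    intro q hq
    rw [mem_Icc] at hq
    rw [mem_range]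
    exact Nat.lt_succ_of_le (Nat.log_mono_right (hq.2.trans hFx))
  rw [← sum_fiberwise_of_maps_to hmap] at hsum
  have h2 : ∑ j ∈ range (Nat.log 2 x + 1), (x : ℝ) ^ (1 - 2 * β) ≤ ∑ j ∈ range (Nat.log 2 x + 1),
      ∑ q ∈ (Icc 1 ⌊(x : ℝ) ^ θ⌋₊).filter (fun q => Nat.log 2 q = j), D q := by
    refine le_trans ?_ hsum
    rw [sum_const, card_range, nsmul_eq_mul]
    have h3 : (x : ℝ) ^ (1 - β) = (x : ℝ) ^ β * (x : ℝ) ^ (1 - 2 * β) := by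
      rw [← Real.rpow_add hx0]
      congr 1
      ring
    rw [h3]
    refine mul_le_mul_of_nonneg_right ?_ (by positivity)
    push_cast
    exact hlog
  obtain ⟨j, hj, hj2⟩ := exists_le_of_sum_le (s := range (Nat.log 2 x + 1)) ⟨0, by simp⟩ h2
  obtain ⟨I, hI⟩ : ∃ I : Finset ℕ, I = (Icc 1 ⌊(x : ℝ) ^ θ⌋₊).filter (fun q => Nat.log 2 q = j) := ⟨_, rfl⟩
  rw [← hI] at hj2
  have hne : I.Nonempty := by
    rw [nonempty_iff_ne_empty]
    intro h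
    rw [h, sum_empty] at hj2
    have : 0 < (x : ℝ) ^ (1 - 2 * β) := Real.rpow_pos_of_pos hx0 _
    linarith
  obtain ⟨Q, hQI, hQm⟩ := exists_max_image I id hne
  have hm : ∀ q ∈ I, (1 ≤ q ∧ q ≤ ⌊(x : ℝ) ^ θ⌋₊) ∧ Nat.log 2 q = j := by
    intro q hq
    rw [hI, mem_filter, mem_Icc] at hq
    exact hq
  have hQ := hm Q hQI
  refine ⟨Q, I, hQ.1.1, ?_, hQ.1.2.trans hFx, ?_, hj2⟩
  · have h1 : (Q : ℝ) ≤ ⌊(x : ℝ) ^ θ⌋₊ := by exact_mod_cast hQ.1.2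
    exact h1.trans (Nat.floor_le (by positivity))
  · intro q hq
    have h := hm q hq
    refine ⟨h.1.1, hQm q hq, ?_⟩
    have h3 := Nat.pow_log_le_self 2 (show q ≠ 0 by omega)
    have h4 := Nat.lt_pow_succ_log_self (b := 2) (by norm_num) Q
    rw [hQ.2, pow_succ] at h4
    rw [h.2] at h3
    omega

theorem t_CONF : J_CONF := by
  classical
  intro hCOL θ δ η₀ β hθ0 hθ1 hδ hβ hη hβθ hKak
  filter_upwards [hKak, log_ev hβ, eventually_ge_atTop 1] with x hK hlog hx S a hsum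
  obtain ⟨hlog1, hlog2⟩ := hlog
  have hxr : (1 : ℝ) ≤ x := by exact_mod_cast hx
  have hx0 : (0 : ℝ) < x := by linarith
  obtain ⟨Q, I, hQ, hQθ, hQx, hI, hs⟩ := block_ex hx hθ1 hlog2 hsum
  obtain ⟨u, hud⟩ : ∃ u : ℝ, u = (x : ℝ) ^ (-β) := ⟨_, rfl⟩
  have hu0 : 0 < u := by rw [hud]; exact Real.rpow_pos_of_pos hx0 _
  have huinv : u * (x : ℝ) ^ β = 1 := by
    rw [hud, ← Real.rpow_add hx0, neg_add_cancel, Real.rpow_zero]
  have hu : u ≤ 1 / 12 := by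
    rw [le_div_iff₀ (by norm_num)]
    calc u * 12 ≤ u * (x : ℝ) ^ β := mul_le_mul_of_nonneg_left hlog1 hu0.le
      _ = 1 := huinv
  have hup : ∀ k : ℕ, u ^ k = (x : ℝ) ^ (-(k * β)) := fun k => by rw [hud]; exact upow hx0 k
  have hxu : ∀ k : ℕ, (x : ℝ) * u ^ k = (x : ℝ) ^ (1 - k * β) := by
    intro k
    rw [hup, sub_eq_add_neg, Real.rpow_add hx0, Real.rpow_one]
  obtain ⟨T, R, c1, c2, c3, c4, c5, c6, c7⟩ := core hCOL (a := a) (S := S) (Z := (x : ℝ) ^ (δ + η₀)) hQ hQx hI hu0 hu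
    (by
      have h1 := hxu 2
      push_cast at h1
      rw [h1]
      exact hs) (by
      intro N hN hr
      refine hK Q N hQ hQθ hN ?_
      have e1 : (x : ℝ) ^ (-η₀) ≤ u ^ 21 := by
        rw [hup]
        refine Real.rpow_le_rpow_of_exponent_le hxr ?_
        push_cast
        linarith
      have e2 : (x : ℝ) ^ (1 - η₀) ≤ x * u ^ 21 := by
        rw [hxu]
        refine Real.rpow_le_rpow_of_exponent_le hxr ?_
        push_cast
        linarith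
      have hQ0 : (0 : ℝ) < Q := by exact_mod_cast hQ
      have hsub : rich N Q ((x : ℝ) * u ^ 21 / Q) ⊆ rich N Q ((x : ℝ) ^ (1 - η₀) / Q) := by
        intro q hq
        unfold rich at hq ⊢
        rw [mem_filter] at hq ⊢
        obtain ⟨hq1, b, hb⟩ := hq
        exact ⟨hq1, b, (div_le_div_of_nonneg_right e2 hQ0.le).trans hb⟩
      calc (x : ℝ) ^ (-η₀) * Q ≤ u ^ 21 * Q := mul_le_mul_of_nonneg_right e1 hQ0.le
        _ = Q * u ^ 21 := mul_comm _ _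
        _ ≤ _ := hr
        _ ≤ _ := by exact_mod_cast card_le_card hsub)
  refine ⟨Q, T, R, ⟨hQ, hQθ, c1, c2, c3, c4, ?_, ?_, ?_⟩⟩
  · have h1 := hup 3
    push_cast at h1
    rw [← h1]
    exact c5
  · have h1 := hup 10
    push_cast at h1
    rw [← h1]
    exact c6
  · refine le_trans ?_ c7
    have h1 : (x : ℝ) ^ (δ + η₀) * u ^ 3 = (x : ℝ) ^ (δ + 20 * β) * (x : ℝ) ^ (η₀ - 23 * β) := by
      rw [hup, ← Real.rpow_add hx0, ← Real.rpow_add hx0]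
      congr 1
      push_cast
      ring
    have h2 : 12 ≤ (x : ℝ) ^ (η₀ - 23 * β) :=
      hlog1.trans (Real.rpow_le_rpow_of_exponent_le hxr (by linarith))
    rw [h1, le_div_iff₀ (by norm_num)]
    exact mul_le_mul_of_nonneg_left h2 (by positivity)

end Pool.Agent.Q224.LD
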