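import Pool.Agent.Q120.LD.Kak

/-!
# Project LD, job CONF: preparations
-/

set_option autoImplicit false

namespace Pool.Agent.Q224.LD

open Finset Pool.Agent.Q120.GE Pool.Agent.Q237.LD Pool.Agent.Q120.LD

theorem thr (J : Finset ℕ) (g : ℕ → ℝ) {A B τ : ℝ} (hg : ∀ q ∈ J, g q ≤ A) (hτ : 0 ≤ τ)
    (hs : B ≤ ∑ q ∈ J, g q) : B - J.card * τ ≤ ((J.filter (fun q => τ ≤ g q)).card : ℝ) * A := by
  have h1 : ∑ q ∈ J, g q = ∑ q ∈ J.filter (fun q => τ ≤ g q), g q +
      ∑ q ∈ J.filter (fun q => ¬ τ ≤ g q), g q := (sum_filter_add_sum_filter_not _ _ _).symm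
  have h2 : ∑ q ∈ J.filter (fun q => τ ≤ g q), g q ≤ ((J.filter (fun q => τ ≤ g q)).card : ℝ) * A := by
    rw [← nsmul_eq_mul]
    exact sum_le_card_nsmul _ _ _ (fun q hq => hg q (mem_filter.1 hq).1)
  have h3 : ∑ q ∈ J.filter (fun q => ¬ τ ≤ g q), g q ≤ J.card * τ := by
    have h4 : ∑ q ∈ J.filter (fun q => ¬ τ ≤ g q), g q ≤
        ((J.filter (fun q => ¬ τ ≤ g q)).card : ℝ) * τ := by
      rw [← nsmul_eq_mul]
      exact sum_le_card_nsmul _ _ _ (fun q hq => (not_le.1 (mem_filter.1 hq).2).le)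
    refine h4.trans (mul_le_mul_of_nonneg_right ?_ hτ)
    exact_mod_cast card_filter_le _ _
  linarith

theorem thr2 (J : Finset ℕ) (g : ℕ → ℝ) {τ : ℝ} (hg : ∀ q ∈ J, 0 ≤ g q) :
    ((J.filter (fun q => ¬ g q ≤ τ)).card : ℝ) * τ ≤ ∑ q ∈ J, g q := by
  have h2 : ((J.filter (fun q => ¬ g q ≤ τ)).card : ℝ) * τ ≤ ∑ q ∈ J.filter (fun q => ¬ g q ≤ τ), g q := by
    rw [← nsmul_eq_mul]
    exact card_nsmul_le_sum _ _ _ (fun q hq => (not_le.1 (mem_filter.1 hq).2).le)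
  refine h2.trans (sum_le_sum_of_subset_of_nonneg (filter_subset _ _) (fun q hq _ => hg q hq))

theorem pc_bd {n : ℕ} (hn : 3 ≤ n) : 0 ≤ pc n ∧ pc n ≤ 1 := by
  unfold pc
  rw [if_pos hn]
  have h3 : (3 : ℝ) ≤ n := by exact_mod_cast hn
  have h1 : 1 ≤ Real.log n := by
    rw [Real.le_log_iff_exp_le (by linarith)]
    linarith [Real.exp_one_lt_d9]
  constructor
  · positivity
  · rw [div_le_one (by linarith)]
    exact h1

open Classical in
theorem f_bd (S : Set ℕ) {n : ℕ} (hn : 3 ≤ n) : |(if n ∈ S then (1 : ℝ) else 0) - pc n| ≤ 1 := by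
  obtain ⟨h1, h2⟩ := pc_bd hn
  split_ifs <;> rw [abs_le] <;> constructor <;> linarith

theorem cl_card {q Q a x : ℕ} (hq : 1 ≤ q) (hQ : 1 ≤ Q) (hqQ : Q < 2 * q) (hx : Q ≤ x) :
    (((Icc 3 x).filter (fun n => n % q = a % q)).card : ℝ) ≤ 3 * ((x : ℝ) / Q) := by
  have h1 : ((Icc 3 x).filter (fun n => n % q = a % q)).card ≤ (range (x / q + 1)).card := by
    refine card_le_card_of_injOn (fun n => n / q) ?_ ?_
    · intro n hn
      have hn' := Finset.mem_coe.1 hn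
      rw [mem_filter, mem_Icc] at hn'
      have : n / q ≤ x / q := Nat.div_le_div_right hn'.1.2
      simp only [coe_range, Set.mem_Iio]
      omega
    · intro n hn m hm h
      have hn' := Finset.mem_coe.1 hn
      have hm' := Finset.mem_coe.1 hm
      rw [mem_filter, mem_Icc] at hn' hm'
      have e1 := Nat.div_add_mod n q
      have e2 := Nat.div_add_mod m q
      have h' : n / q = m / q := h
      rw [← e1, ← e2, h', hn'.2, hm'.2]
  rw [card_range] at h1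
  have h2 : (((Icc 3 x).filter (fun n => n % q = a % q)).card : ℝ) ≤ ((x / q : ℕ) : ℝ) + 1 := by
    exact_mod_cast h1
  have h3 : ((x / q : ℕ) : ℝ) ≤ (x : ℝ) / q := Nat.cast_div_le
  have hq0 : (0 : ℝ) < q := by exact_mod_cast hq
  have hQ0 : (0 : ℝ) < Q := by exact_mod_cast hQ
  have hx0 : (0 : ℝ) ≤ x := Nat.cast_nonneg x
  have h4 : (x : ℝ) / q ≤ 2 * ((x : ℝ) / Q) := by
    rw [div_le_iff₀ hq0]
    have h5 : 2 * ((x : ℝ) / Q) * q = x / Q * (2 * q) := by ring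
    rw [h5]
    have h6 : (Q : ℝ) ≤ 2 * q := by exact_mod_cast hqQ.le
    calc (x : ℝ) = x / Q * Q := by field_simp
      _ ≤ x / Q * (2 * q) := mul_le_mul_of_nonneg_left h6 (by positivity)
  have h7 : 1 ≤ (x : ℝ) / Q := by
    rw [le_div_iff₀ hQ0, one_mul]
    exact_mod_cast hx
  linarith

theorem dev_card (S : Set ℕ) (q a x : ℕ) :
    dev S q a x ≤ (((Icc 3 x).filter (fun n => n % q = a % q)).card : ℝ) := by
  classical
  unfold dev
  rw [dev_sum, ← sum_filter]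
  refine (abs_sum_le_sum_abs _ _).trans ?_
  refine (sum_le_card_nsmul _ _ 1 (fun n hn => ?_)).trans (by simp)
  exact f_bd S (mem_Icc.1 (mem_filter.1 hn).1).1

theorem dbl (E J : Finset ℕ) (P : ℕ → ℕ → Prop) [∀ n q, Decidable (P n q)] :
    ∑ q ∈ J, ((E.filter (fun n => P n q)).card : ℝ) = ∑ n ∈ E, ((J.filter (fun q => P n q)).card : ℝ) := by
  simp only [card_filter, Nat.cast_sum, Nat.cast_ite, Nat.cast_one, Nat.cast_zero]
  exact sum_comm

theorem pair_sum (E K : Finset ℕ) (P : ℕ → ℕ → Prop) [∀ n q, Decidable (P n q)] :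
    ∑ q ∈ K, ∑ q' ∈ K, ((E.filter (fun n => P n q ∧ P n q')).card : ℝ) =
      ∑ n ∈ E, ((K.filter (fun q => P n q)).card : ℝ) ^ 2 := by
  simp only [card_filter, Nat.cast_sum, Nat.cast_ite, Nat.cast_one, Nat.cast_zero]
  have h1 : ∀ q ∈ K, ∑ q' ∈ K, ∑ n ∈ E, (if P n q ∧ P n q' then (1 : ℝ) else 0) =
      ∑ n ∈ E, ∑ q' ∈ K, (if P n q ∧ P n q' then (1 : ℝ) else 0) := fun q _ => sum_comm
  rw [sum_congr rfl h1, sum_comm]
  refine sum_congr rfl (fun n _ => ?_)
  rw [sq, sum_mul_sum]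
  refine sum_congr rfl (fun q _ => sum_congr rfl (fun q' _ => ?_))
  by_cases h : P n q <;> by_cases h' : P n q' <;> simp [h, h']

/-- the choice of the colour -/
theorem colour (hCOL : J_COL) (E J : Finset ℕ) (P : ℕ → ℕ → Prop) [∀ n q, Decidable (P n q)]
    {t : ℕ} (ht : 1 ≤ t) {L : ℝ} (hL : 0 < L) (hJ : J.Nonempty)
    (hC : ∀ q ∈ J, ((E.filter (fun n => P n q)).card : ℝ) ≤ 3 * L)
    (hw : ∀ n ∈ E, (J.filter (fun q => P n q)).card ≤ t) :
    ∃ K ⊆ J, (J.card : ℝ) / (2 * t) ≤ K.card ∧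
      ∑ n ∈ E, ((K.filter (fun q => P n q)).card : ℝ) ^ 2 ≤ 12 * ((K.card : ℝ) * L) := by
  classical
  have ht0 : (0 : ℝ) < t := by exact_mod_cast ht
  have hJ0 : (0 : ℝ) < J.card := by exact_mod_cast hJ.card_pos
  obtain ⟨w, hwd⟩ : ∃ w : ℕ → ℕ → ℝ, w = fun q q' => ((E.filter (fun n => P n q ∧ P n q')).card : ℝ) :=
    ⟨_, rfl⟩
  obtain ⟨f, hf, hI⟩ := hCOL J w t ht (fun q q' => by rw [hwd]; exact Nat.cast_nonneg _)
    (fun q q' => by rw [hwd]; simp only [and_comm])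
  have hdiag : ∑ q ∈ J, w q q ≤ J.card * (3 * L) := by
    rw [← nsmul_eq_mul]
    refine sum_le_card_nsmul _ _ _ (fun q hq => ?_)
    rw [hwd]
    simp only [and_self]
    exact hC q hq
  have hall : ∑ q ∈ J, ∑ q' ∈ J, w q q' ≤ t * (J.card * (3 * L)) := by
    have h1 : ∑ q ∈ J, ∑ q' ∈ J, w q q' = ∑ n ∈ E, ((J.filter (fun q => P n q)).card : ℝ) ^ 2 := by
      rw [hwd]
      exact pair_sum E J P
    rw [h1]
    have h2 : ∑ n ∈ E, ((J.filter (fun q => P n q)).card : ℝ) ^ 2 ≤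
        ∑ n ∈ E, t * ((J.filter (fun q => P n q)).card : ℝ) := by
      refine sum_le_sum (fun n hn => ?_)
      rw [sq]
      refine mul_le_mul_of_nonneg_right ?_ (Nat.cast_nonneg _)
      exact_mod_cast hw n hn
    refine h2.trans ?_
    rw [← mul_sum]
    refine mul_le_mul_of_nonneg_left ?_ ht0.le
    rw [← dbl E J P, ← nsmul_eq_mul]
    exact sum_le_card_nsmul _ _ _ hC
  have hS1 : ∑ q ∈ J, ∑ q' ∈ J.filter (fun q' => f q' = f q), w q q' ≤ 6 * (J.card * L) := by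
    refine hI.trans ?_
    have h3 : 1 / (t : ℝ) * ∑ q ∈ J, ∑ q' ∈ J, w q q' ≤ J.card * (3 * L) := by
      refine (mul_le_mul_of_nonneg_left hall (by positivity)).trans (le_of_eq ?_)
      field_simp
    linarith
  have hS2 : ∑ c ∈ range t, ∑ q ∈ J.filter (fun q => f q = c), ∑ q' ∈ J.filter (fun q => f q = c), w q q' =
      ∑ q ∈ J, ∑ q' ∈ J.filter (fun q' => f q' = f q), w q q' := by
    rw [← sum_fiberwise_of_maps_to (s := J) (t := range t) (g := f) (fun q _ => mem_range.2 (hf q))]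
    refine sum_congr rfl (fun c _ => sum_congr rfl (fun q hq => ?_))
    rw [(mem_filter.1 hq).2]
  have hS3 : ∑ c ∈ range t, ((J.filter (fun q => f q = c)).card : ℝ) = J.card := by
    rw [← Nat.cast_sum]
    congr 1
    exact (card_eq_sum_card_fiberwise (fun q _ => by simpa using hf q)).symm
  obtain ⟨c, hc, hc2⟩ : ∃ c ∈ range t, (J.card : ℝ) / (2 * t) ≤ ((J.filter (fun q => f q = c)).card : ℝ) -
      (∑ q ∈ J.filter (fun q => f q = c), ∑ q' ∈ J.filter (fun q => f q = c), w q q') / (12 * L) := by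
    by_contra hcon
    push Not at hcon
    have h4 := sum_lt_sum_of_nonempty (s := range t) ⟨0, mem_range.2 ht⟩ hcon
    rw [sum_sub_distrib, ← sum_div, hS3, hS2, sum_const, card_range, nsmul_eq_mul] at h4
    have h5 : (t : ℝ) * (J.card / (2 * t)) = J.card / 2 := by field_simp
    rw [h5] at h4
    have h6 : (∑ q ∈ J, ∑ q' ∈ J.filter (fun q' => f q' = f q), w q q') / (12 * L) ≤ J.card / 2 := by
      rw [div_le_iff₀ (by positivity)]
      linarith
    linarith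
  refine ⟨J.filter (fun q => f q = c), filter_subset _ _, ?_, ?_⟩
  · refine hc2.trans ?_
    have h7 : 0 ≤ (∑ q ∈ J.filter (fun q => f q = c), ∑ q' ∈ J.filter (fun q => f q = c), w q q') / (12 * L) := by
      refine div_nonneg (sum_nonneg (fun q _ => sum_nonneg (fun q' _ => ?_))) (by positivity)
      rw [hwd]
      exact Nat.cast_nonneg _
    linarith
  · have h8 : ∑ q ∈ J.filter (fun q => f q = c), ∑ q' ∈ J.filter (fun q => f q = c), w q q' =
        ∑ n ∈ E, (((J.filter (fun q => f q = c)).filter (fun q => P n q)).card : ℝ) ^ 2 := by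
      rw [hwd]
      exact pair_sum E _ P
    rw [← h8]
    have h9 : 0 ≤ (J.card : ℝ) / (2 * t) := by positivity
    have h10 : (∑ q ∈ J.filter (fun q => f q = c), ∑ q' ∈ J.filter (fun q => f q = c), w q q') / (12 * L) ≤
        ((J.filter (fun q => f q = c)).card : ℝ) := by linarith
    rw [div_le_iff₀ (by positivity)] at h10
    linarith

theorem co_bd (K : Finset ℕ) (a : ℕ → ℕ) (s : ℕ → Bool) (n : ℕ) :
    |co (tri K a s) n| ≤ ((K.filter (fun q => n % q = a q % q)).card : ℝ) := by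
  rw [co_tri]
  refine (abs_sum_le_sum_abs _ _).trans ?_
  refine (sum_le_card_nsmul _ _ 1 (fun q _ => abs_sr _)).trans (by simp)

open Classical in
theorem final (S : Set ℕ) (a : ℕ → ℕ) (x : ℕ) (R K : Finset ℕ) (hR : R ⊆ Icc 3 x) {D r : ℝ}
    (hD : ∀ q ∈ K, D ≤ dev S q (a q) x)
    (hr : ∀ q ∈ K, ((R.filter (fun n => n % q = a q % q)).card : ℝ) ≤ r) :
    ∃ s : ℕ → Bool, (K.card : ℝ) * (D - r) ≤
      ∑ n ∈ Icc 3 x \ R, co (tri K a s) n * ((if n ∈ S then 1 else 0) - pc n) := by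
  obtain ⟨s, hs⟩ := sum_dev S K a x
  refine ⟨s, ?_⟩
  have h1 : ∑ n ∈ Icc 3 x \ R, co (tri K a s) n * ((if n ∈ S then 1 else 0) - pc n) +
      ∑ n ∈ R, co (tri K a s) n * ((if n ∈ S then 1 else 0) - pc n) =
      ∑ n ∈ Icc 3 x, co (tri K a s) n * ((if n ∈ S then 1 else 0) - pc n) :=
    sum_sdiff hR
  have h2 : ∑ n ∈ R, co (tri K a s) n * ((if n ∈ S then 1 else 0) - pc n) ≤ K.card * r := by
    have h3 : ∀ n ∈ R, co (tri K a s) n * ((if n ∈ S then 1 else 0) - pc n) ≤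
        ((K.filter (fun q => n % q = a q % q)).card : ℝ) := by
      intro n hn
      refine (le_abs_self _).trans ?_
      rw [abs_mul]
      have h4 := mul_le_mul (co_bd K a s n) (f_bd S (mem_Icc.1 (hR hn)).1) (abs_nonneg _)
        (Nat.cast_nonneg _)
      rw [mul_one] at h4
      exact h4
    refine (sum_le_sum h3).trans ?_
    rw [← dbl R K (fun n q => n % q = a q % q), ← nsmul_eq_mul]
    exact sum_le_card_nsmul _ _ _ hr
  have h5 : (K.card : ℝ) * D ≤ ∑ q ∈ K, dev S q (a q) x := by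
    rw [← nsmul_eq_mul]
    exact card_nsmul_le_sum _ _ _ hD
  rw [hs, ← h1] at h5
  have h6 : (K.card : ℝ) * (D - r) = K.card * D - K.card * r := by ring
  linarith

end Pool.Agent.Q224.LD
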