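import Pool.Agent.Q224.LD.ConfA

/-!
# Project LD, job CONF: the deterministic core
-/

set_option autoImplicit false

namespace Pool.Agent.Q224.LD

open Finset Pool.Agent.Q120.GE Pool.Agent.Q237.LD Pool.Agent.Q120.LD

open Classical in
theorem core (hCOL : J_COL) {x Q : ℕ} {I : Finset ℕ} {a : ℕ → ℕ} {S : Set ℕ} {u Z : ℝ}
    (hQ : 1 ≤ Q) (hQx : Q ≤ x) (hI : ∀ q ∈ I, 1 ≤ q ∧ q ≤ Q ∧ Q < 2 * q) (hu0 : 0 < u) (hu : u ≤ 1 / 12)
    (hsum : (x : ℝ) * u ^ 2 ≤ ∑ q ∈ I, dev S q (a q) x)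
    (hK : ∀ N : Finset ℕ, N ⊆ Icc 1 x → (Q : ℝ) * u ^ 21 ≤ ((rich N Q ((x : ℝ) * u ^ 21 / Q)).card : ℝ) →
      Z ≤ (N.card : ℝ)) :
    ∃ (T : Finset (ℕ × ℕ × Bool)) (R : Finset ℕ), (∀ t ∈ T, 1 ≤ t.1 ∧ t.1 ≤ Q ∧ t.2.1 < t.1) ∧ T.Nonempty ∧
      R ⊆ Icc 3 x ∧ ∑ n ∈ Icc 3 x \ R, co T n ^ 2 ≤ 12 * ((T.card : ℝ) * (x / Q)) ∧
      u ^ 3 * ((T.card : ℝ) * (x / Q)) / 2 ≤
        ∑ n ∈ Icc 3 x \ R, co T n * ((if n ∈ S then 1 else 0) - pc n) ∧
      (R.card : ℝ) ≤ u ^ 10 * ((T.card : ℝ) * (x / Q)) ∧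
      Z * u ^ 3 / 12 ≤ (T.card : ℝ) * (x / Q) := by
  have hQ0 : (0 : ℝ) < Q := by exact_mod_cast hQ
  have hx0 : (0 : ℝ) < x := by exact_mod_cast (lt_of_lt_of_le hQ hQx)
  obtain ⟨L, hL⟩ : ∃ L : ℝ, L = (x : ℝ) / Q := ⟨_, rfl⟩
  have hL0 : 0 < L := by rw [hL]; positivity
  have hxL : (x : ℝ) = Q * L := by rw [hL]; field_simp
  have hthr : (x : ℝ) * u ^ 21 / Q = L * u ^ 21 := by rw [hxL]; field_simp
  have hu2 : u ≤ 1 / 2 := by linarith
  have hup : ∀ k : ℕ, 1 ≤ k → u ^ k ≤ 1 / 12 := by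
    intro k hk
    calc u ^ k ≤ u ^ 1 := pow_le_pow_of_le_one hu0.le (by linarith) hk
      _ ≤ 1 / 12 := by rw [pow_one]; exact hu
  have hIQ : (I.card : ℝ) ≤ Q := by
    have h1 : I ⊆ Icc 1 Q := fun q hq => mem_Icc.2 ⟨(hI q hq).1, (hI q hq).2.1⟩
    have h2 := card_le_card h1
    rw [Nat.card_Icc, Nat.add_sub_cancel] at h2
    exact_mod_cast h2
  rw [← hL]
  -- the classes
  have hC : ∀ q ∈ I, (((Icc 3 x).filter (fun n => n % q = a q % q)).card : ℝ) ≤ 3 * L := by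
    intro q hq
    rw [hL]
    exact cl_card (hI q hq).1 hQ (hI q hq).2.2 hQx
  obtain ⟨J, hJ⟩ : ∃ J : Finset ℕ, J = I.filter (fun q => L * u ^ 3 ≤ dev S q (a q) x) := ⟨_, rfl⟩
  have hJI : J ⊆ I := by rw [hJ]; exact filter_subset _ _
  have hJd : ∀ q ∈ J, L * u ^ 3 ≤ dev S q (a q) x := by
    intro q hq
    rw [hJ] at hq
    exact (mem_filter.1 hq).2
  have hJQ : (J.card : ℝ) ≤ Q := le_trans (by exact_mod_cast card_le_card hJI) hIQ
  have hJ1 : (Q : ℝ) * u ^ 3 ≤ J.card := by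
    have h1 := thr I (fun q => dev S q (a q) x) (A := 3 * L) (B := (x : ℝ) * u ^ 2) (τ := L * u ^ 3)
      (fun q hq => (dev_card S q (a q) x).trans (hC q hq)) (by positivity) hsum
    rw [← hJ, hxL] at h1
    have h2 : (I.card : ℝ) * (L * u ^ 3) ≤ Q * (L * u ^ 3) :=
      mul_le_mul_of_nonneg_right hIQ (by positivity)
    have h3 : L * (Q * u ^ 2 - Q * u ^ 3) ≤ L * (3 * J.card) := by nlinarith
    have h4 := le_of_mul_le_mul_left h3 hL0
    have h5 : 12 * ((Q : ℝ) * u ^ 3) ≤ Q * u ^ 2 := by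
      have : (Q : ℝ) * u ^ 2 * (12 * u) ≤ Q * u ^ 2 * 1 :=
        mul_le_mul_of_nonneg_left (by linarith) (by positivity)
      nlinarith
    have h6 : 0 ≤ (Q : ℝ) * u ^ 3 := by positivity
    linarith
  have hJ0 : (0 : ℝ) < J.card := lt_of_lt_of_le (by positivity) hJ1
  -- multiplicities
  obtain ⟨w, hw⟩ : ∃ w : ℕ → ℕ, w = fun n => (J.filter (fun q => n % q = a q % q)).card := ⟨_, rfl⟩
  have hwn : ∀ n, (J.filter (fun q => n % q = a q % q)).card = w n := fun n => by rw [hw]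
  have hdbl : ∀ E : Finset ℕ, ∑ q ∈ J, ((E.filter (fun n => n % q = a q % q)).card : ℝ) =
      ∑ n ∈ E, (w n : ℝ) := by
    intro E
    rw [dbl E J (fun n q => n % q = a q % q)]
    exact sum_congr rfl (fun n _ => by rw [hwn])
  obtain ⟨F, hF⟩ : ∃ F : ℕ → Finset ℕ, F = fun t => (Icc 3 x).filter (fun n => t < w n) := ⟨_, rfl⟩
  have hFs : ∀ t, F t ⊆ Icc 3 x := fun t => by rw [hF]; exact filter_subset _ _
  have hFm : ∀ t n, n ∈ F t ↔ n ∈ Icc 3 x ∧ t < w n := fun t n => by rw [hF]; exact mem_filter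
  have hall : ∑ n ∈ Icc 3 x, (w n : ℝ) ≤ J.card * (3 * L) := by
    rw [← hdbl, ← nsmul_eq_mul]
    exact sum_le_card_nsmul _ _ _ (fun q hq => hC q (hJI hq))
  have hF0 : (x : ℝ) * u ^ 20 < ∑ n ∈ F 0, (w n : ℝ) := by
    have h1 : ∑ n ∈ F 0, (w n : ℝ) = ∑ n ∈ Icc 3 x, (w n : ℝ) := by
      rw [hF]
      refine sum_filter_of_ne (fun n _ hn => ?_)
      exact Nat.pos_of_ne_zero (fun h => hn (by rw [h, Nat.cast_zero]))
    rw [h1, ← hdbl]
    have h2 : (J.card : ℝ) * (L * u ^ 3) ≤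
        ∑ q ∈ J, (((Icc 3 x).filter (fun n => n % q = a q % q)).card : ℝ) := by
      rw [← nsmul_eq_mul]
      exact card_nsmul_le_sum _ _ _ (fun q hq => (hJd q hq).trans (dev_card S q (a q) x))
    refine lt_of_lt_of_le ?_ h2
    have h3 : (Q : ℝ) * u ^ 3 * (L * u ^ 3) ≤ J.card * (L * u ^ 3) :=
      mul_le_mul_of_nonneg_right hJ1 (by positivity)
    refine lt_of_lt_of_le ?_ h3
    have h4 : (Q : ℝ) * u ^ 3 * (L * u ^ 3) = x * u ^ 6 := by rw [hxL]; ring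
    rw [h4]
    refine mul_lt_mul_of_pos_left ?_ hx0
    exact pow_lt_pow_right_of_lt_one₀ hu0 (by linarith) (by norm_num)
  have hFe : ∃ t, ∑ n ∈ F t, (w n : ℝ) ≤ x * u ^ 20 := by
    refine ⟨J.card, ?_⟩
    have h1 : F J.card = ∅ := by
      rw [eq_empty_iff_forall_notMem]
      intro n hn
      have h2 := ((hFm _ _).1 hn).2
      rw [hw] at h2
      exact absurd (card_filter_le J (fun q => n % q = a q % q)) (not_le.2 h2)
    rw [h1, sum_empty]
    positivity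
  obtain ⟨t, htd⟩ : ∃ t : ℕ, t = Nat.find hFe := ⟨_, rfl⟩
  have ht1 : ∑ n ∈ F t, (w n : ℝ) ≤ x * u ^ 20 := by rw [htd]; exact Nat.find_spec hFe
  have ht : 1 ≤ t := by
    rcases Nat.eq_zero_or_pos t with h | h
    · rw [h] at ht1
      exact absurd ht1 (not_le.2 hF0)
    · exact h
  have ht0 : (0 : ℝ) < t := by exact_mod_cast ht
  have ht2 : (x : ℝ) * u ^ 20 < ∑ n ∈ F (t - 1), (w n : ℝ) := by
    have h1 := Nat.find_min hFe (m := t - 1) (by rw [← htd]; omega)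
    exact not_le.1 h1
  -- the rich set
  obtain ⟨N, hN⟩ : ∃ N : Finset ℕ, N = F (t - 1) := ⟨_, rfl⟩
  have hNs : N ⊆ Icc 3 x := by rw [hN]; exact hFs _
  have hNw : ∀ n ∈ N, t ≤ w n := by
    intro n hn
    rw [hN] at hn
    have := ((hFm _ _).1 hn).2
    omega
  have hZN : Z ≤ N.card := by
    refine hK N (fun n hn => ?_) ?_
    · have := mem_Icc.1 (hNs hn)
      exact mem_Icc.2 ⟨by omega, this.2⟩
    · rw [hthr]
      have h1 := thr J (fun q => ((N.filter (fun n => n % q = a q % q)).card : ℝ)) (A := 3 * L)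
        (B := (x : ℝ) * u ^ 20) (τ := L * u ^ 21) (fun q hq => by
          refine le_trans ?_ (hC q (hJI hq))
          exact_mod_cast card_le_card (filter_subset_filter _ hNs)) (by positivity) (by
          rw [hdbl N, hN]
          exact ht2.le)
      have hsub : J.filter (fun q => L * u ^ 21 ≤ ((N.filter (fun n => n % q = a q % q)).card : ℝ)) ⊆
          rich N Q (L * u ^ 21) := by
        intro q hq
        rw [mem_filter] at hq
        unfold rich
        rw [mem_filter, mem_Icc]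
        exact ⟨⟨(hI q (hJI hq.1)).1, (hI q (hJI hq.1)).2.1⟩, a q, hq.2⟩
      refine le_trans ?_ (Nat.cast_le.2 (card_le_card hsub))
      rw [hxL] at h1
      have h2 : (J.card : ℝ) * (L * u ^ 21) ≤ Q * (L * u ^ 21) :=
        mul_le_mul_of_nonneg_right hJQ (by positivity)
      have h3 : L * (Q * u ^ 20 - Q * u ^ 21) ≤
          L * (3 * (J.filter (fun q => L * u ^ 21 ≤ ((N.filter (fun n => n % q = a q % q)).card : ℝ))).card) := by
        linarith
      have h4 := le_of_mul_le_mul_left h3 hL0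
      have h5 : 12 * ((Q : ℝ) * u ^ 21) ≤ Q * u ^ 20 := by
        have : (Q : ℝ) * u ^ 20 * (12 * u) ≤ Q * u ^ 20 * 1 :=
          mul_le_mul_of_nonneg_left (by linarith) (by positivity)
        have e : (Q : ℝ) * u ^ 20 * (12 * u) = 12 * ((Q : ℝ) * u ^ 21) := by ring
        linarith
      have h6 : 0 ≤ (Q : ℝ) * u ^ 21 := by positivity
      linarith
  have htN : (t : ℝ) * N.card ≤ 3 * x := by
    have h1 : (N.card : ℝ) * t ≤ ∑ n ∈ N, (w n : ℝ) := by
      rw [← nsmul_eq_mul]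
      exact card_nsmul_le_sum _ _ _ (fun n hn => by exact_mod_cast hNw n hn)
    have h2 : ∑ n ∈ N, (w n : ℝ) ≤ ∑ n ∈ Icc 3 x, (w n : ℝ) :=
      sum_le_sum_of_subset_of_nonneg hNs (fun n _ _ => Nat.cast_nonneg _)
    have h3 : (J.card : ℝ) * (3 * L) ≤ Q * (3 * L) := mul_le_mul_of_nonneg_right hJQ (by positivity)
    have h4 : (Q : ℝ) * (3 * L) = 3 * x := by rw [hxL]; ring
    linarith
  have htZ : (t : ℝ) * Z ≤ 3 * x := (mul_le_mul_of_nonneg_left hZN ht0.le).trans htN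
  -- the exceptional set
  obtain ⟨R, hRd⟩ : ∃ R : Finset ℕ, R = F t := ⟨_, rfl⟩
  have hRs : R ⊆ Icc 3 x := by rw [hRd]; exact hFs _
  have htR : (t : ℝ) * R.card ≤ x * u ^ 20 := by
    have h1 : (R.card : ℝ) * t ≤ ∑ n ∈ R, (w n : ℝ) := by
      rw [← nsmul_eq_mul]
      refine card_nsmul_le_sum _ _ _ (fun n hn => ?_)
      rw [hRd] at hn
      exact_mod_cast (((hFm _ _).1 hn).2).le
    rw [hRd] at h1 ⊢
    linarith
  obtain ⟨J₁, hJ₁⟩ : ∃ J₁ : Finset ℕ, J₁ = J.filter (fun q =>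
      ((R.filter (fun n => n % q = a q % q)).card : ℝ) ≤ L * u ^ 4) := ⟨_, rfl⟩
  have hJ₁J : J₁ ⊆ J := by rw [hJ₁]; exact filter_subset _ _
  have hJ₁c : (J.card : ℝ) / 2 ≤ J₁.card := by
    have h1 := thr2 J (fun q => ((R.filter (fun n => n % q = a q % q)).card : ℝ)) (τ := L * u ^ 4)
      (fun q _ => Nat.cast_nonneg _)
    rw [hdbl R, hRd] at h1
    have h2 := card_filter_add_card_filter_not (s := J)
      (p := fun q => ((R.filter (fun n => n % q = a q % q)).card : ℝ) ≤ L * u ^ 4)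
    rw [← hJ₁, hRd] at h2
    have h3 : ((J₁.card : ℝ)) + ((J.filter (fun q =>
        ¬ (((F t).filter (fun n => n % q = a q % q)).card : ℝ) ≤ L * u ^ 4)).card : ℝ) = J.card := by
      exact_mod_cast h2
    obtain ⟨B, hB⟩ : ∃ B : ℝ, B = ((J.filter (fun q =>
        ¬ (((F t).filter (fun n => n % q = a q % q)).card : ℝ) ≤ L * u ^ 4)).card : ℝ) := ⟨_, rfl⟩
    rw [← hB] at h1 h3
    have h4 : B * (L * u ^ 4) ≤ Q * u ^ 16 * (L * u ^ 4) := by
      have e : (Q : ℝ) * u ^ 16 * (L * u ^ 4) = x * u ^ 20 := by rw [hxL]; ring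
      rw [e]
      linarith
    have h5 := le_of_mul_le_mul_right h4 (by positivity)
    have h6 : (Q : ℝ) * u ^ 16 ≤ Q * u ^ 3 * (1 / 12) := by
      have e : (Q : ℝ) * u ^ 16 = Q * u ^ 3 * u ^ 13 := by ring
      rw [e]
      exact mul_le_mul_of_nonneg_left (hup 13 (by norm_num)) (by positivity)
    linarith
  have hJ₁0 : J₁.Nonempty := by
    rw [← card_pos]
    have : (0 : ℝ) < J₁.card := by linarith
    exact_mod_cast this
  obtain ⟨K, hKJ, hKc, hKs⟩ := colour hCOL (Icc 3 x \ R) J₁ (fun n q => n % q = a q % q) ht hL0 hJ₁0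
    (fun q hq => by
      refine le_trans ?_ (hC q (hJI (hJ₁J hq)))
      exact_mod_cast card_le_card (filter_subset_filter _ sdiff_subset))
    (fun n hn => by
      rw [mem_sdiff] at hn
      have h1 : w n ≤ t := by
        by_contra hcon
        refine hn.2 ?_
        rw [hRd]
        exact (hFm _ _).2 ⟨hn.1, not_le.1 hcon⟩
      rw [← hwn] at h1
      exact (card_le_card (filter_subset_filter _ hJ₁J)).trans h1)
  have hKL : (x : ℝ) * u ^ 3 / 4 ≤ t * (K.card * L) := by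
    have h1 : (J₁.card : ℝ) ≤ K.card * (2 * t) := by
      rw [div_le_iff₀ (by positivity)] at hKc
      exact hKc
    have h2 : (Q : ℝ) * u ^ 3 * L ≤ 4 * (t * K.card) * L :=
      mul_le_mul_of_nonneg_right (by linarith) hL0.le
    rw [hxL]
    linarith
  have hK0 : 0 < (K.card : ℝ) := by
    have h1 : 0 < (x : ℝ) * u ^ 3 / 4 := by positivity
    by_contra hcon
    have h2 : (K.card : ℝ) = 0 := le_antisymm (not_lt.1 hcon) (Nat.cast_nonneg _)
    rw [h2] at hKL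
    linarith
  obtain ⟨s, hs⟩ := final S a x R K hRs (D := L * u ^ 3) (r := L * u ^ 4)
    (fun q hq => hJd q (hJ₁J (hKJ hq))) (fun q hq => by
      have h1 := hKJ hq
      rw [hJ₁, mem_filter] at h1
      exact h1.2)
  have hinj : Function.Injective (fun q : ℕ => (q, a q % q, s q)) := fun q q' h => congrArg Prod.fst h
  have hTc : (tri K a s).card = K.card := by
    unfold tri
    rw [card_image_of_injective _ hinj]
  refine ⟨tri K a s, R, ?_, ?_, hRs, ?_, ?_, ?_, ?_⟩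
  · intro z hz
    unfold tri at hz
    rw [mem_image] at hz
    obtain ⟨q, hq, rfl⟩ := hz
    have h1 := hI q (hJI (hJ₁J (hKJ hq)))
    exact ⟨h1.1, h1.2.1, Nat.mod_lt _ h1.1⟩
  · rw [← card_pos, hTc]
    exact_mod_cast hK0
  · rw [hTc]
    refine le_trans (sum_le_sum (fun n _ => ?_)) hKs
    rw [← sq_abs]
    exact pow_le_pow_left₀ (abs_nonneg _) (co_bd K a s n) 2
  · rw [hTc]
    refine le_trans ?_ hs
    have h1 : u ^ 3 * ((K.card : ℝ) * L) * u ≤ u ^ 3 * ((K.card : ℝ) * L) * (1 / 2) :=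
      mul_le_mul_of_nonneg_left hu2
        (mul_nonneg (pow_nonneg hu0.le 3) (mul_nonneg (Nat.cast_nonneg _) hL0.le))
    have e : (K.card : ℝ) * (L * u ^ 3 - L * u ^ 4) =
        u ^ 3 * ((K.card : ℝ) * L) - u ^ 3 * ((K.card : ℝ) * L) * u := by ring
    rw [e]
    linarith
  · rw [hTc]
    have h1 : (t : ℝ) * R.card ≤ t * (u ^ 10 * ((K.card : ℝ) * L)) := by
      refine htR.trans ?_
      have h2 : u ^ 10 * (x * u ^ 3 / 4) ≤ u ^ 10 * (t * (K.card * L)) :=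
        mul_le_mul_of_nonneg_left hKL (by positivity)
      have h3 : (x : ℝ) * u ^ 20 ≤ u ^ 10 * (x * u ^ 3 / 4) := by
        have e : (x : ℝ) * u ^ 20 = x * u ^ 13 * u ^ 7 := by ring
        have e' : u ^ 10 * ((x : ℝ) * u ^ 3 / 4) = x * u ^ 13 * (1 / 4) := by ring
        rw [e, e']
        refine mul_le_mul_of_nonneg_left ?_ (by positivity)
        have := hup 7 (by norm_num)
        linarith
      have e : (t : ℝ) * (u ^ 10 * ((K.card : ℝ) * L)) = u ^ 10 * (t * (K.card * L)) := by ring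
      rw [e]
      linarith
    exact le_of_mul_le_mul_left h1 ht0
  · rw [hTc]
    have h1 : (t : ℝ) * (Z * u ^ 3 / 12) ≤ t * ((K.card : ℝ) * L) := by
      refine le_trans ?_ hKL
      have h2 : (t : ℝ) * Z * (u ^ 3 / 12) ≤ 3 * x * (u ^ 3 / 12) :=
        mul_le_mul_of_nonneg_right htZ (by positivity)
      have e : (t : ℝ) * (Z * u ^ 3 / 12) = t * Z * (u ^ 3 / 12) := by ring
      rw [e]
      linarith
    exact le_of_mul_le_mul_left h1 ht0

end Pool.Agent.Q224.LD
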