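import Pool.Agent.Q120.LD.Kak

/-!
# Project LD, job MODK: the level of distribution in the model, from the Kakeya type statement
-/

set_option autoImplicit false

namespace Pool.Agent.Q224.LD

open Finset Filter MeasureTheory Pool.Agent.Q120.GM Pool.Agent.Q120.GE Pool.Agent.Q237.LD Pool.Agent.Q120.LD
open scoped Topology

theorem one_conf (hH : J_HOE) {Ω : Type} [MeasurableSpace Ω] {μ : Measure Ω} [IsProbabilityMeasure μ] {A : Ω → Set ℕ}
    (hA : IsModel μ pc A) {θ β δ : ℝ} (hβ : 0 < β) (hβθ : 100 * β ≤ 1 - θ) {k x Q : ℕ} (hx : 1 ≤ x)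
    (hy : (k : ℝ) + 1 ≤ (x : ℝ) ^ β) (hy2 : 12 ≤ (x : ℝ) ^ β) (T : Finset (ℕ × ℕ × Bool)) (R : Finset ℕ) :
    μ.real {ω | Conf (A ω) θ β δ x Q T R} ≤
      Real.exp (-(2 * k + 3)) ^ T.card * Real.exp (-(k + 1)) ^ R.card * Real.exp (-((x : ℝ) ^ (δ + 14 * β) / 288)) := by
  classical
  by_cases hne : ∃ ω₀, Conf (A ω₀) θ β δ x Q T R
  swap
  · have h0 : {ω | Conf (A ω) θ β δ x Q T R} = ∅ := by
      rw [Set.eq_empty_iff_forall_notMem]
      intro ω hω
      exact hne ⟨ω, hω⟩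
    rw [h0, measureReal_empty]
    positivity
  obtain ⟨ω₀, h⟩ := hne
  have hxr : (1 : ℝ) ≤ x := by exact_mod_cast hx
  have hx0 : (0 : ℝ) < x := by linarith
  have hQ0 : (0 : ℝ) < Q := by exact_mod_cast h.hQ
  obtain ⟨y, hyd⟩ : ∃ y : ℝ, y = (x : ℝ) ^ β := ⟨_, rfl⟩
  rw [← hyd] at hy hy2
  have hy0 : 0 < y := by linarith
  have hyp : ∀ n : ℕ, y ^ n = (x : ℝ) ^ (n * β) := by
    intro n
    rw [hyd, ← Real.rpow_natCast, ← Real.rpow_mul hx0.le, mul_comm]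
  have hT1 : (1 : ℝ) ≤ T.card := by exact_mod_cast h.hT0.card_pos
  obtain ⟨X, hX⟩ : ∃ X : ℝ, X = (T.card : ℝ) * (x / Q) := ⟨_, rfl⟩
  have hX0 : 0 < X := by rw [hX]; positivity
  have hsq := h.sq
  have hrc := h.rc
  have hbig := h.big
  rw [← hX] at hsq hrc hbig
  -- the bound of Hoeffding
  have h1 := hH Ω μ pc A hA (Icc 3 x \ R) (co T) (12 * X) ((x : ℝ) ^ (-(3 * β)) * X / 2) hsq (by positivity)
    (by positivity)
  have h2 : {ω | Conf (A ω) θ β δ x Q T R} ⊆ {ω | (x : ℝ) ^ (-(3 * β)) * X / 2 ≤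
      ∑ n ∈ Icc 3 x \ R, co T n * ((if n ∈ A ω then 1 else 0) - pc n)} := by
    intro ω hω
    have h3 := Conf.dv hω
    rw [← hX] at h3
    refine le_trans h3 (le_of_eq ?_)
    refine sum_congr rfl (fun n _ => ?_)
    congr
  refine (measureReal_mono h2 (measure_ne_top _ _)).trans (h1.trans ?_)
  rw [← Real.exp_nat_mul, ← Real.exp_nat_mul, ← Real.exp_add, ← Real.exp_add, Real.exp_le_exp]
  have e6 : (x : ℝ) ^ (-(3 * β)) = (y ^ 3)⁻¹ := by
    rw [hyp 3, ← Real.rpow_neg hx0.le]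
    push_cast
    rfl
  have e10 : (x : ℝ) ^ (-(10 * β)) = (y ^ 10)⁻¹ := by
    rw [hyp 10, ← Real.rpow_neg hx0.le]
    push_cast
    rfl
  have e : ((x : ℝ) ^ (-(3 * β)) * X / 2) ^ 2 / (2 * (12 * X)) = X / y ^ 6 / 288 * 3 := by
    rw [e6]
    field_simp
    ring
  rw [e]
  -- three bounds
  have b1 : (T.card : ℝ) * (2 * k + 3) ≤ X / y ^ 6 / 288 := by
    have c1 : y ^ 100 ≤ (x : ℝ) / Q := by
      rw [hyp 100, le_div_iff₀ hQ0]
      calc (x : ℝ) ^ (((100 : ℕ) : ℝ) * β) * Q ≤ (x : ℝ) ^ (1 - θ) * (x : ℝ) ^ θ := by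
            refine mul_le_mul ?_ h.hQx hQ0.le (by positivity)
            refine Real.rpow_le_rpow_of_exponent_le hxr ?_
            push_cast
            exact hβθ
        _ = x := by rw [← Real.rpow_add hx0, sub_add_cancel, Real.rpow_one]
    rw [div_div, le_div_iff₀ (by positivity), hX]
    have c2 : (2 * (k : ℝ) + 3) * (y ^ 6 * 288) ≤ y ^ 100 := by
      have c3 : (2 * (k : ℝ) + 3) ≤ 3 * y := by linarith
      have c4 : (1 : ℝ) ≤ y := by linarith
      calc (2 * (k : ℝ) + 3) * (y ^ 6 * 288) ≤ (3 * y) * (y ^ 6 * 288) :=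
            mul_le_mul_of_nonneg_right c3 (by positivity)
        _ = 864 * y ^ 7 := by ring
        _ ≤ y ^ 3 * y ^ 7 := by
            refine mul_le_mul_of_nonneg_right ?_ (by positivity)
            calc (864 : ℝ) ≤ 12 ^ 3 := by norm_num
              _ ≤ y ^ 3 := pow_le_pow_left₀ (by norm_num) hy2 3
        _ = y ^ 10 := by ring
        _ ≤ y ^ 100 := pow_le_pow_right₀ c4 (by norm_num)
    calc (T.card : ℝ) * (2 * k + 3) * (y ^ 6 * 288) = T.card * ((2 * k + 3) * (y ^ 6 * 288)) := by ring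
      _ ≤ (T.card : ℝ) * ((x : ℝ) / Q) := mul_le_mul_of_nonneg_left (c2.trans c1) (by linarith)
  have b2 : (R.card : ℝ) * (k + 1) ≤ X / y ^ 6 / 288 := by
    rw [div_div, le_div_iff₀ (by positivity)]
    rw [e10, ← div_eq_inv_mul, le_div_iff₀ (by positivity)] at hrc
    refine le_trans ?_ hrc
    have c2 : ((k : ℝ) + 1) * (y ^ 6 * 288) ≤ y ^ 10 := by
      calc ((k : ℝ) + 1) * (y ^ 6 * 288) ≤ y * (y ^ 6 * 288) :=
            mul_le_mul_of_nonneg_right hy (by positivity)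
        _ = 288 * y ^ 7 := by ring
        _ ≤ y ^ 3 * y ^ 7 := by
            refine mul_le_mul_of_nonneg_right ?_ (by positivity)
            calc (288 : ℝ) ≤ 12 ^ 3 := by norm_num
              _ ≤ y ^ 3 := pow_le_pow_left₀ (by norm_num) hy2 3
        _ = y ^ 10 := by ring
    calc (R.card : ℝ) * (k + 1) * (y ^ 6 * 288) = R.card * ((k + 1) * (y ^ 6 * 288)) := by ring
      _ ≤ R.card * y ^ 10 := mul_le_mul_of_nonneg_left c2 (Nat.cast_nonneg _)
  have b3 : (x : ℝ) ^ (δ + 14 * β) / 288 ≤ X / y ^ 6 / 288 := by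
    refine div_le_div_of_nonneg_right ?_ (by norm_num)
    rw [le_div_iff₀ (by positivity), hyp 6, ← Real.rpow_add hx0]
    refine le_trans (le_of_eq ?_) hbig
    congr 1
    push_cast
    ring
  linarith

theorem powerset_bd {ι : Type} (s : Finset ι) {p : ℝ} (hp : 0 ≤ p) (hs : (s.card : ℝ) * p ≤ 1) :
    ∑ t ∈ s.powerset, p ^ t.card ≤ Real.exp 1 := by
  have h1 := Finset.sum_pow_mul_eq_add_pow p (1 : ℝ) s
  simp only [one_pow, mul_one] at h1
  rw [h1]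
  calc (p + 1) ^ s.card ≤ Real.exp p ^ s.card := pow_le_pow_left₀ (by linarith) (Real.add_one_le_exp p) _
    _ = Real.exp (s.card * p) := by rw [← Real.exp_nat_mul]
    _ ≤ Real.exp 1 := Real.exp_le_exp.2 hs

theorem two_pow_exp (n : ℕ) : (2 : ℝ) ^ n ≤ Real.exp n := by
  have k4 : (2 : ℝ) ≤ Real.exp 1 := by linarith [Real.add_one_le_exp (1 : ℝ)]
  refine (pow_le_pow_left₀ (by norm_num) k4 n).trans (le_of_eq ?_)
  rw [← Real.exp_nat_mul, mul_one]

theorem t_MODK : J_MODK := by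
  classical
  intro hH hCOL hCONF θ δ hθ0 hθ1 hδ hKak
  obtain ⟨η₀, hη₀, hK⟩ := hKak
  obtain ⟨β, hβd⟩ : ∃ β : ℝ, β = min η₀ (1 - θ) / 100 := ⟨_, rfl⟩
  have b0 : 0 < β := by
    have : 0 < min η₀ (1 - θ) := lt_min hη₀ (by linarith)
    rw [hβd]
    linarith
  have b1 : 100 * β ≤ η₀ := by
    have := min_le_left η₀ (1 - θ)
    linarith
  have b2 : 100 * β ≤ 1 - θ := by
    have := min_le_right η₀ (1 - θ)
    linarith
  have hC := hCONF hCOL θ δ η₀ β hθ0 hθ1 hδ b0 b1 b2 hK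
  obtain ⟨x₀, hx₀⟩ := eventually_atTop.1 hC
  have hr : (1 : ℝ) < (2 : ℝ) ^ β := Real.one_lt_rpow (by norm_num) b0
  have htop : Tendsto (fun k : ℕ => ((2 : ℝ) ^ β) ^ k) atTop atTop := tendsto_pow_atTop_atTop_of_one_lt hr
  have ev1 : ∀ᶠ k : ℕ in atTop, (k + 1 : ℝ) ≤ (2 : ℝ) ^ (β * k) := by
    have h4 := tendsto_pow_const_div_const_pow_of_one_lt 1 hr
    have h5 : ∀ᶠ k : ℕ in atTop, (k : ℝ) ^ 1 / ((2 : ℝ) ^ β) ^ k ≤ 1 / 2 :=
      h4.eventually_le_const (by norm_num)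
    filter_upwards [h5, eventually_ge_atTop 1] with k hk hk1
    have hp : (0 : ℝ) < ((2 : ℝ) ^ β) ^ k := by positivity
    rw [div_le_iff₀ hp, pow_one] at hk
    rw [Real.rpow_mul (by norm_num), Real.rpow_natCast]
    have : (1 : ℝ) ≤ k := by exact_mod_cast hk1
    linarith
  have ev2 : ∀ᶠ k : ℕ in atTop, 12 ≤ (2 : ℝ) ^ (β * k) := by
    filter_upwards [htop.eventually_ge_atTop 12] with k hk
    rw [Real.rpow_mul (by norm_num), Real.rpow_natCast]
    exact hk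
  refine ⟨β, b0, ?_⟩
  filter_upwards [ev1, ev2, eventually_ge_atTop x₀] with k hk1 hk2 hk3 Ω _ μ _ A hA
  have hkx : ∀ x : ℕ, 2 ^ k ≤ x → x₀ ≤ x := by
    intro x hx
    have : k < 2 ^ k := Nat.lt_two_pow_self
    omega
  obtain ⟨U, hU⟩ : ∃ U : ℕ → Finset (ℕ × ℕ × Bool), U = fun x => (Icc 1 x) ×ˢ (range x) ×ˢ (univ : Finset Bool) :=
    ⟨_, rfl⟩
  have hsub : {ω | ∃ (x : ℕ) (a : ℕ → ℕ), 2 ^ k ≤ x ∧ x < 2 ^ (k + 1) ∧
      (x : ℝ) ^ (1 - β) ≤ ∑ q ∈ Icc 1 ⌊(x : ℝ) ^ θ⌋₊, dev (A ω) q (a q) x} ⊆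
      ⋃ x ∈ Ico (2 ^ k) (2 ^ (k + 1)), ⋃ z ∈ (Icc 1 x) ×ˢ (U x).powerset ×ˢ (Icc 3 x).powerset,
        {ω | Conf (A ω) θ β δ x z.1 z.2.1 z.2.2} := by
    rintro ω ⟨x, a, hx1, hx2, h⟩
    obtain ⟨Q, T, R, hc⟩ := hx₀ x (hkx x hx1) (A ω) a h
    have hxN : 1 ≤ x := le_trans Nat.one_le_two_pow hx1
    have hxr : (1 : ℝ) ≤ x := by exact_mod_cast hxN
    have hQx : Q ≤ x := by
      have h2 : (x : ℝ) ^ θ ≤ x := by
        calc (x : ℝ) ^ θ ≤ (x : ℝ) ^ (1 : ℝ) := Real.rpow_le_rpow_of_exponent_le hxr (by linarith)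
          _ = x := Real.rpow_one _
      have h3 := hc.hQx.trans h2
      exact_mod_cast h3
    refine Set.mem_biUnion (x := x) ?_ (Set.mem_biUnion (x := (Q, T, R)) ?_ hc)
    · rw [Finset.mem_coe, mem_Ico]
      exact ⟨hx1, hx2⟩
    · rw [Finset.mem_coe, mem_product, mem_product]
      refine ⟨mem_Icc.2 ⟨hc.hQ, hQx⟩, ?_, mem_powerset.2 hc.hR⟩
      show T ∈ (U x).powerset
      rw [mem_powerset]
      intro t ht
      obtain ⟨h4, h5, h6⟩ := hc.hT t ht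
      rw [hU]
      rw [mem_product, mem_product, mem_Icc, mem_range]
      exact ⟨⟨h4, by omega⟩, by omega, mem_univ _⟩
  refine (measureReal_mono hsub (measure_ne_top _ _)).trans ((measureReal_biUnion_finset_le _ _).trans ?_)
  obtain ⟨W, hW⟩ : ∃ W : ℝ, W = Real.exp (-((2 : ℝ) ^ ((δ + 14 * β) * k) / 288)) := ⟨_, rfl⟩
  have hW0 : 0 < W := by rw [hW]; exact Real.exp_pos _
  have hone : ∀ x ∈ Ico (2 ^ k) (2 ^ (k + 1)),
      μ.real (⋃ z ∈ (Icc 1 x) ×ˢ (U x).powerset ×ˢ (Icc 3 x).powerset, {ω | Conf (A ω) θ β δ x z.1 z.2.1 z.2.2}) ≤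
        2 ^ (k + 1) * (Real.exp 1 * Real.exp 1 * W) := by
    intro x hx
    rw [mem_Ico] at hx
    have hxN : 1 ≤ x := le_trans Nat.one_le_two_pow hx.1
    have hxr : (1 : ℝ) ≤ x := by exact_mod_cast hxN
    have hpow : ∀ c : ℝ, 0 ≤ c → (2 : ℝ) ^ (c * k) ≤ (x : ℝ) ^ c := by
      intro c hc
      rw [mul_comm, Real.rpow_mul (by norm_num), Real.rpow_natCast]
      refine Real.rpow_le_rpow (by positivity) ?_ hc
      exact_mod_cast hx.1
    have hy : (k : ℝ) + 1 ≤ (x : ℝ) ^ β := hk1.trans (hpow β b0.le)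
    have hy2 : 12 ≤ (x : ℝ) ^ β := hk2.trans (hpow β b0.le)
    refine (measureReal_biUnion_finset_le _ _).trans ?_
    have hz : ∀ z ∈ (Icc 1 x) ×ˢ (U x).powerset ×ˢ (Icc 3 x).powerset,
        μ.real {ω | Conf (A ω) θ β δ x z.1 z.2.1 z.2.2} ≤
          Real.exp (-(2 * k + 3)) ^ z.2.1.card * (Real.exp (-(k + 1)) ^ z.2.2.card * W) := by
      intro z _
      refine (one_conf hH hA b0 b2 hxN hy hy2 z.2.1 z.2.2).trans ?_
      rw [mul_assoc]
      refine mul_le_mul_of_nonneg_left (mul_le_mul_of_nonneg_left ?_ (by positivity)) (by positivity)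
      rw [hW, Real.exp_le_exp]
      have := hpow (δ + 14 * β) (by linarith)
      linarith
    refine (sum_le_sum hz).trans ?_
    rw [sum_product]
    simp only
    rw [sum_const, nsmul_eq_mul, Nat.card_Icc, Nat.add_sub_cancel, sum_product]
    simp only
    have h1 : ∀ T ∈ (U x).powerset, ∑ R ∈ (Icc 3 x).powerset,
        Real.exp (-(2 * k + 3)) ^ T.card * (Real.exp (-(k + 1)) ^ R.card * W) =
        Real.exp (-(2 * k + 3)) ^ T.card * ((∑ R ∈ (Icc 3 x).powerset, Real.exp (-(k + 1)) ^ R.card) * W) := by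
      intro T _
      rw [← mul_sum, ← sum_mul]
    rw [sum_congr rfl h1, ← sum_mul]
    have hxe : (x : ℝ) ≤ Real.exp (k + 1) := by
      have h2 := two_pow_exp (k + 1)
      push_cast at h2
      refine le_trans ?_ h2
      exact_mod_cast hx.2.le
    have h2 : ∑ T ∈ (U x).powerset, Real.exp (-(2 * k + 3)) ^ T.card ≤ Real.exp 1 := by
      refine powerset_bd _ (Real.exp_pos _).le ?_
      have h3 : (U x).card = 2 * x ^ 2 := by
        rw [hU]
        rw [card_product, card_product, Nat.card_Icc, card_range, card_univ, Fintype.card_bool, Nat.add_sub_cancel]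
        ring
      rw [h3]
      push_cast
      have h4 : 2 * (x : ℝ) ^ 2 ≤ Real.exp (2 * k + 3) := by
        have h5 : (2 : ℝ) ≤ Real.exp 1 := by linarith [Real.add_one_le_exp (1 : ℝ)]
        have h6 : (x : ℝ) ^ 2 ≤ Real.exp (k + 1) ^ 2 := pow_le_pow_left₀ (by linarith) hxe 2
        calc 2 * (x : ℝ) ^ 2 ≤ Real.exp 1 * Real.exp (k + 1) ^ 2 := mul_le_mul h5 h6 (by positivity) (by positivity)
          _ = Real.exp (2 * k + 3) := by
            rw [← Real.exp_nat_mul, ← Real.exp_add]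
            congr 1
            push_cast
            ring
      calc 2 * (x : ℝ) ^ 2 * Real.exp (-(2 * k + 3)) ≤ Real.exp (2 * k + 3) * Real.exp (-(2 * k + 3)) :=
            mul_le_mul_of_nonneg_right h4 (Real.exp_pos _).le
        _ = 1 := by rw [← Real.exp_add, add_neg_cancel, Real.exp_zero]
    have h3 : ∑ R ∈ (Icc 3 x).powerset, Real.exp (-(k + 1)) ^ R.card ≤ Real.exp 1 := by
      refine powerset_bd _ (Real.exp_pos _).le ?_
      have h4 : ((Icc 3 x).card : ℝ) ≤ Real.exp (k + 1) := by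
        refine le_trans ?_ hxe
        rw [Nat.card_Icc]
        exact_mod_cast (by omega : x + 1 - 3 ≤ x)
      calc ((Icc 3 x).card : ℝ) * Real.exp (-(k + 1)) ≤ Real.exp (k + 1) * Real.exp (-(k + 1)) :=
            mul_le_mul_of_nonneg_right h4 (Real.exp_pos _).le
        _ = 1 := by rw [← Real.exp_add, add_neg_cancel, Real.exp_zero]
    have h5 : (x : ℝ) ≤ 2 ^ (k + 1) := by exact_mod_cast hx.2.le
    refine mul_le_mul h5 ?_ (by positivity) (by positivity)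
    rw [mul_assoc]
    exact mul_le_mul h2 (mul_le_mul_of_nonneg_right h3 hW0.le) (by positivity) (Real.exp_pos _).le
  refine (sum_le_sum hone).trans ?_
  rw [sum_const, nsmul_eq_mul, Nat.card_Ico]
  have e4 : 2 ^ (k + 1) - 2 ^ k = 2 ^ k := by rw [pow_succ]; omega
  rw [e4]
  push_cast
  have h1 : (2 : ℝ) ^ k * (2 ^ (k + 1) * (Real.exp 1 * Real.exp 1 * W)) ≤
      Real.exp k * (Real.exp (k + 1) * (Real.exp 1 * Real.exp 1 * W)) := by
    have h2 := two_pow_exp k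
    have h3 := two_pow_exp (k + 1)
    push_cast at h3
    gcongr
  refine h1.trans ?_
  rw [hW, ← Real.exp_add, ← Real.exp_add, ← Real.exp_add, ← Real.exp_add, Real.exp_le_exp]
  obtain ⟨b, hb⟩ : ∃ b : ℝ, b = (2 : ℝ) ^ (β * k) := ⟨_, rfl⟩
  obtain ⟨z, hz⟩ : ∃ z : ℝ, z = (2 : ℝ) ^ (δ * k) := ⟨_, rfl⟩
  have hz1 : 1 ≤ z := by rw [hz]; exact Real.one_le_rpow (by norm_num) (by positivity)
  have e1 : (2 : ℝ) ^ ((δ + β) * k) = z * b := by
    rw [hz, hb, ← Real.rpow_add (by norm_num)]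
    congr 1
    ring
  have e2 : (2 : ℝ) ^ ((δ + 14 * β) * k) = z * b ^ 14 := by
    rw [hz, hb, ← Real.rpow_natCast, ← Real.rpow_mul (by norm_num), ← Real.rpow_add (by norm_num)]
    congr 1
    push_cast
    ring
  rw [e1, e2]
  rw [← hb] at hk1 hk2
  have h6 : 4 * (z * b) ≤ z * b ^ 14 / 288 := by
    rw [le_div_iff₀ (by norm_num)]
    have h7 : (1152 : ℝ) ≤ b ^ 13 := by
      calc (1152 : ℝ) ≤ 12 ^ 13 := by norm_num
        _ ≤ b ^ 13 := pow_le_pow_left₀ (by norm_num) hk2 13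
    have h8 : z * b * 1152 ≤ z * b * b ^ 13 := mul_le_mul_of_nonneg_left h7 (by nlinarith)
    have e3 : z * b ^ 14 = z * b * b ^ 13 := by ring
    rw [e3]
    linarith
  have h9 : (k : ℝ) + 1 ≤ z * b := by nlinarith
  linarith

end Pool.Agent.Q224.LD
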